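import Pool.Agent.MGP.Stmts

/-!
# MGP row RCT: the rectangle identity
-/

set_option autoImplicit false

namespace Pool.Agent.MGP.H64

open Pool.Agent.MGP

theorem rct_group {G : Type} [CommGroup G] {A B C D p q s t : G} (h1 : A * p = B * q)
    (h2 : C * s = D * t) (h3 : A * s = B * t) : C * p = D * q := by
  have e1 : t * p = q * s := by
    have e2 : (A * B) * (t * p) = (A * B) * (q * s) := by
      calc (A * B) * (t * p) = (A * p) * (B * t) := by
            rw [mul_comm t p, mul_mul_mul_comm]
        _ = (B * q) * (A * s) := by rw [h1, h3]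
        _ = (A * B) * (q * s) := by rw [mul_mul_mul_comm, mul_comm B A]
    exact mul_left_cancel e2
  have e3 : (C * p) * s = (D * q) * s := by
    calc (C * p) * s = (C * s) * p := mul_right_comm C p s
      _ = (D * t) * p := by rw [h2]
      _ = D * (t * p) := mul_assoc D t p
      _ = D * (q * s) := by rw [e1]
      _ = (D * q) * s := (mul_assoc D q s).symm
  exact mul_right_cancel e3

theorem rct : RctStmt := by
  intro G _ f hf r c hr hc h1 h2 h3
  have o1 : Odd (r + 22) := hr.add_even (by decide)
  have o2 : Odd (r + 20) := hr.add_even (by decide)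
  have o3 : Odd (r + 2) := hr.add_even (by decide)
  have c1 : Odd (c + 2) := hc.add_even (by decide)
  have c2 : Odd (c + 40) := hc.add_even (by decide)
  have c3 : Odd (c + 42) := hc.add_even (by decide)
  rw [hf _ _ o1 hc, hf _ _ o2 c1] at h1
  rw [hf _ _ o3 c2, hf _ _ hr c3] at h2
  rw [hf _ _ o1 c2, hf _ _ o2 c3] at h3
  rw [hf _ _ o3 hc, hf _ _ hr c1]
  exact rct_group h1 h2 h3

end Pool.Agent.MGP.H64
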